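import Mathlib

set_option autoImplicit false

/-! Graphically discrete groups: definitions. -/

namespace Pool.Agent.H539Z.GD

/-- the automorphism group of a simple graph -/
def Aut {V : Type} (X : SimpleGraph V) : Type := X ≃g X

instance {V : Type} (X : SimpleGraph V) : Group (Aut X) := inferInstanceAs (Group (X ≃g X))

/-- the topology of pointwise convergence on `Aut X`, the vertex set being discrete -/
instance {V : Type} (X : SimpleGraph V) : TopologicalSpace (Aut X) :=
  TopologicalSpace.induced (fun (g : X ≃g X) (v : V) => g v)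
    (@Pi.topologicalSpace V (fun _ => V) (fun _ => ⊥))

/-- `G` has a compact normal subgroup with discrete quotient -/
def CompactByDiscrete (G : Type) [Group G] [TopologicalSpace G] : Prop :=
  ∃ K : Subgroup G, K.Normal ∧ IsCompact (K : Set G) ∧ DiscreteTopology (G ⧸ K)

/-- the action `ρ` of `Γ` on `X` by graph automorphisms is proper and cocompact for the path
metric -/
def IsGeometric {Γ : Type*} [Group Γ] {V : Type} (X : SimpleGraph V) (ρ : Γ →* (X ≃g X)) : Prop :=
  (∀ (v : V) (R : ℕ), {γ : Γ | X.dist v (ρ γ v) ≤ R}.Finite) ∧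
    ∃ (v : V) (R : ℕ), ∀ w : V, ∃ γ : Γ, X.dist w (ρ γ v) ≤ R

/-- `Γ` is finitely generated, and every connected locally finite graph with a geometric action of
`Γ` has compact-by-discrete automorphism group -/
def GraphicallyDiscrete (Γ : Type*) [Group Γ] : Prop :=
  Group.FG Γ ∧ ∀ (V : Type) (X : SimpleGraph V), X.Connected → (∀ v, (X.neighborSet v).Finite) →
    ∀ ρ : Γ →* (X ≃g X), IsGeometric X ρ → CompactByDiscrete (Aut X)

end Pool.Agent.H539Z.GD
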