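import Mathlib
import Pool.Agent.H539Z.GDDefs

set_option autoImplicit false

/-! Combinatorial form of compact-by-discreteness, and a Dietzmann type lemma. -/

namespace Pool.Agent.H539Z.GD

section Dietz

variable {G V : Type*} [Group G] [MulAction G V]

/-- points reached from `x` by exactly `n` elements of `C` -/
def Rep (C : Set G) (x : V) : ℕ → V → Prop
  | 0, y => y = x
  | n + 1, y => ∃ c ∈ C, ∃ y', Rep C x n y' ∧ y = c • y'

lemma rep_front {C : Set G} (hC : ∀ g : G, ∀ c ∈ C, g * c * g⁻¹ ∈ C) {x : V} {A : Finset G}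
    (hA : ∀ c ∈ C, ∃ r ∈ A, c • x = r • x) (n : ℕ) (y : V) (h : Rep C x (n + 1) y) :
    ∃ r ∈ A, ∃ y', Rep C x n y' ∧ y = r • y' := by
  induction n generalizing y with
  | zero =>
    obtain ⟨c, hc, y', h1, rfl⟩ := h
    obtain ⟨r, hr, h2⟩ := hA c hc
    have h3 : y' = x := h1
    exact ⟨r, hr, x, rfl, by rw [h3, h2]⟩
  | succ n ih =>
    obtain ⟨c, hc, y', h1, rfl⟩ := h
    obtain ⟨r, hr, y'', h2, rfl⟩ := ih y' h1
    refine ⟨r, hr, (r⁻¹ * c * r⁻¹⁻¹) • y'', ⟨_, hC r⁻¹ c hc, y'', h2, rfl⟩, ?_⟩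
    simp [smul_smul, mul_assoc]

lemma dietz_aux {C : Set G} (hC : ∀ g : G, ∀ c ∈ C, g * c * g⁻¹ ∈ C) {x : V} {A : Finset G}
    (hA : ∀ c ∈ C, ∃ r ∈ A, c • x = r • x)
    (hper : ∀ c ∈ C, ∀ y : V, (Set.range fun n : ℕ => c ^ n • y).Finite) (L : Finset G) :
    (∀ r ∈ L, r ∈ C) → ∃ T : Set V, T.Finite ∧ ∀ n y, Rep C x n y →
      (∀ r ∈ A, r ∉ L → ∀ m y', n = m + 1 → Rep C x m y' → y ≠ r • y') → y ∈ T := by
  classical
  induction L using Finset.induction_on with
  | empty =>
    intro _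
    refine ⟨{x}, Set.finite_singleton x, fun n y h1 h2 => ?_⟩
    cases n with
    | zero => exact h1
    | succ n =>
      obtain ⟨r, hr, y', h3, h4⟩ := rep_front hC hA n y h1
      exact absurd h4 (h2 r hr (Finset.notMem_empty r) n y' rfl h3)
  | insert r L _ ih =>
    intro hL
    obtain ⟨T, hT, hT'⟩ := ih fun s hs => hL s (Finset.mem_insert_of_mem hs)
    have hr : r ∈ C := hL r (Finset.mem_insert_self r L)
    refine ⟨⋃ t ∈ T, Set.range fun n : ℕ => r ^ n • t, hT.biUnion fun t _ => hper r hr t, ?_⟩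
    intro n
    induction n with
    | zero =>
      intro y h1 _
      exact Set.mem_biUnion (hT' 0 y h1 fun s _ _ m y' hm => absurd hm (by omega)) ⟨0, by simp⟩
    | succ n ihn =>
      intro y h1 h2
      by_cases h : ∃ y', Rep C x n y' ∧ y = r • y'
      · obtain ⟨y', h3, rfl⟩ := h
        have h4 := ihn y' h3 fun s hs hs' m y'' hm h5 h6 => by
          subst hm
          refine h2 s hs hs' (m + 1) ((s⁻¹ * r * s⁻¹⁻¹) • y'') rfl ⟨_, hC s⁻¹ r hr, y'', h5, rfl⟩ ?_
          rw [h6]
          simp [smul_smul, mul_assoc]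
        obtain ⟨t, ht, k, hk⟩ := Set.mem_iUnion₂.mp h4
        refine Set.mem_biUnion ht ⟨k + 1, ?_⟩
        simp only at hk ⊢
        rw [← hk, smul_smul, pow_succ']
      · refine Set.mem_biUnion (hT' (n + 1) y h1 fun s hs hs' m y' hm h3 h4 => ?_) ⟨0, by simp⟩
        by_cases hsr : s = r
        · obtain rfl : n = m := by omega
          exact h ⟨y', h3, hsr ▸ h4⟩
        · exact h2 s hs (by simp [hsr, hs']) m y' hm h3 h4

/-- a conjugation invariant symmetric set of elements with finite orbits which moves `x` to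
finitely many points generates a subgroup in which `x` has a finite orbit -/
lemma dietz {C : Set G} (hC : ∀ g : G, ∀ c ∈ C, g * c * g⁻¹ ∈ C) (hinv : ∀ c ∈ C, c⁻¹ ∈ C)
    (hper : ∀ c ∈ C, ∀ y : V, (Set.range fun n : ℕ => c ^ n • y).Finite) (x : V)
    (hx : ((fun c => c • x) '' C).Finite) :
    {y | ∃ k ∈ Subgroup.closure C, k • x = y}.Finite := by
  classical
  obtain ⟨A, hA, hA2, hA3⟩ := hx.exists_subset_finite_image_eq (s := C) (f := fun c => c • x)
    subset_rfl
  have hA' : ∀ c ∈ C, ∃ r ∈ hA2.toFinset, c • x = r • x := by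
    intro c hc
    have : c • x ∈ (fun c => c • x) '' A := hA3 ▸ ⟨c, hc, rfl⟩
    obtain ⟨r, hr, h⟩ := this
    exact ⟨r, hA2.mem_toFinset.mpr hr, h.symm⟩
  obtain ⟨T, hT, hT'⟩ := dietz_aux hC hA' hper hA2.toFinset fun r hr => hA (hA2.mem_toFinset.mp hr)
  refine hT.subset ?_
  rintro y ⟨k, hk, rfl⟩
  have : ∃ n, Rep C x n (k • x) := by
    induction hk using Subgroup.closure_induction_left with
    | one => exact ⟨0, one_smul G x⟩
    | mul_left c hc k _ ih =>
      obtain ⟨n, hn⟩ := ih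
      exact ⟨n + 1, c, hc, _, hn, mul_smul c k x⟩
    | inv_mul_cancel c hc k _ ih =>
      obtain ⟨n, hn⟩ := ih
      exact ⟨n + 1, c⁻¹, hinv c hc, _, hn, mul_smul c⁻¹ k x⟩
  obtain ⟨n, hn⟩ := this
  exact hT' n _ hn fun r hr hr' => absurd hr hr'

end Dietz

section Graph

variable {V : Type} {X : SimpleGraph V}

lemma dist_map_le (hc : X.Connected) (g : X ≃g X) (u v : V) : X.dist (g u) (g v) ≤ X.dist u v := by
  obtain ⟨p, hp⟩ := hc.exists_walk_length_eq_dist u v
  have := SimpleGraph.dist_le (p.map g.toHom)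
  rwa [SimpleGraph.Walk.length_map, hp] at this

lemma dist_map (hc : X.Connected) (g : X ≃g X) (u v : V) : X.dist (g u) (g v) = X.dist u v := by
  refine le_antisymm (dist_map_le hc g u v) ?_
  have := dist_map_le hc g⁻¹ (g u) (g v)
  simpa using this

lemma ball_finite (hc : X.Connected) (hl : ∀ v, (X.neighborSet v).Finite) (R : ℕ) (v : V) :
    {w | X.dist v w ≤ R}.Finite := by
  induction R generalizing v with
  | zero =>
    refine (Set.finite_singleton v).subset fun w hw => ?_
    have : X.dist v w = 0 := Nat.le_zero.mp hw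
    exact (hc.dist_eq_zero_iff.mp this).symm
  | succ R ih =>
    refine ((Set.finite_singleton v).union ((hl v).biUnion fun u _ => ih u)).subset fun w hw => ?_
    obtain ⟨p, hp⟩ := hc.exists_walk_length_eq_dist v w
    cases p with
    | nil => exact Or.inl rfl
    | cons h q =>
      refine Or.inr (Set.mem_biUnion h ?_)
      have h1 := SimpleGraph.dist_le q
      rw [SimpleGraph.Walk.length_cons] at hp
      have h2 : X.dist v w ≤ R + 1 := hw
      show X.dist _ w ≤ R
      omega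

lemma bounded_of_finite {S : Set V} (hS : S.Finite) (v : V) : ∃ D, ∀ w ∈ S, X.dist v w ≤ D := by
  obtain ⟨D, hD⟩ := (hS.image fun w => X.dist v w).bddAbove
  exact ⟨D, fun w hw => hD ⟨w, hw, rfl⟩⟩

lemma periodic_of_fix (hc : X.Connected) (hl : ∀ v, (X.neighborSet v).Finite) (g : X ≃g X) {x : V}
    (hx : g x = x) (y : V) : (Set.range fun n : ℕ => (g ^ n) y).Finite := by
  refine (ball_finite hc hl (X.dist x y) x).subset ?_
  rintro _ ⟨n, rfl⟩
  have h1 : (g ^ n) x = x := by
    induction n with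
    | zero => rfl
    | succ n ih => rw [pow_succ, RelIso.mul_apply, hx, ih]
  have := dist_map hc (g ^ n) x y
  rw [h1] at this
  exact this.le

/-- combinatorial form of compact-by-discreteness -/
def Good (X : SimpleGraph V) : Prop :=
  ∃ K : Subgroup (X ≃g X), K.Normal ∧ (∃ F : Finset V, ∀ g : X ≃g X, (∀ v ∈ F, g v = v) → g ∈ K) ∧
    ∀ v, {w | ∃ k ∈ K, k v = w}.Finite

lemma isOpen_aut {S : Set (Aut X)} : IsOpen S ↔ ∀ g : X ≃g X, g ∈ S → ∃ F : Finset V,
    ∀ g' : X ≃g X, (∀ v ∈ F, g' v = g v) → g' ∈ S := by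
  let _ : TopologicalSpace V := ⊥
  have : DiscreteTopology V := ⟨rfl⟩
  constructor
  · intro h g hg
    obtain ⟨t, ht, rfl⟩ := isOpen_induced_iff.mp h
    obtain ⟨F, u, hu, hu'⟩ := isOpen_pi_iff.mp ht _ hg
    refine ⟨F, fun g' h' => hu' fun v hv => ?_⟩
    show g' v ∈ u v
    rw [h' v hv]
    exact (hu v hv).2
  · intro h
    rw [isOpen_iff_forall_mem_open]
    intro g hg
    obtain ⟨F, hF⟩ := h g hg
    refine ⟨(fun (g : X ≃g X) (v : V) => g v) ⁻¹' Set.pi (F : Set V) fun v => {(show X ≃g X from g) v},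
      fun g' h' => hF g' fun v hv => h' v hv, ?_, fun v _ => rfl⟩
    exact isOpen_induced (isOpen_set_pi F.finite_toSet fun v _ => isOpen_discrete _)

lemma discrete_quot (K : Subgroup (Aut X)) (F : Finset V)
    (hF : ∀ g : X ≃g X, (∀ v ∈ F, g v = v) → (show Aut X from g) ∈ K) :
    DiscreteTopology (Aut X ⧸ K) := by
  rw [discreteTopology_iff_isOpen_singleton]
  intro q
  rw [← (QuotientGroup.isQuotientMap_mk K).isOpen_preimage, isOpen_aut]
  intro g hg
  refine ⟨F, fun g' h' => ?_⟩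
  have h1 := hF (g⁻¹ * g') fun v hv => by
    rw [RelIso.mul_apply, h' v hv]
    simp
  have h2 : (QuotientGroup.mk (s := K) g) = q := hg
  show (QuotientGroup.mk (s := K) g') = q
  rw [← h2]
  exact (QuotientGroup.eq.mpr h1).symm

lemma cbd_iff : CompactByDiscrete (Aut X) ↔ Good X := by
  let _ : TopologicalSpace V := ⊥
  have : DiscreteTopology V := ⟨rfl⟩
  have hind : Topology.IsInducing (fun (g : Aut X) (v : V) => (show X ≃g X from g) v) := ⟨rfl⟩
  constructor
  · rintro ⟨K, hn, hk, hd⟩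
    refine ⟨K, hn, ?_, fun v => ?_⟩
    · have h1 : IsOpen (K : Set (Aut X)) := by
        have h2 := (isOpen_discrete ({((1 : Aut X) : Aut X ⧸ K)} : Set (Aut X ⧸ K))).preimage
          (QuotientGroup.continuous_mk (N := K))
        convert h2 using 1
        ext g
        simp only [SetLike.mem_coe, Set.mem_preimage, Set.mem_singleton_iff, QuotientGroup.eq,
          mul_one, inv_mem_iff]
      obtain ⟨F, hF⟩ := isOpen_aut.mp h1 (1 : X ≃g X) K.one_mem
      exact ⟨F, fun g hg => hF g hg⟩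
    · have h1 := hk.image ((continuous_apply v).comp hind.continuous)
      exact h1.finite_of_discrete
  · rintro ⟨K, hn, ⟨F, hF⟩, hfin⟩
    refine ⟨K, hn, ?_, ?_⟩
    · rw [hind.isCompact_iff]
      refine (isCompact_univ_pi fun v => (hfin v).isCompact).of_isClosed_subset ?_ ?_
      · rw [← closure_subset_iff_isClosed]
        intro f hf
        have key : ∀ E : Finset V, ∃ k ∈ K, ∀ v ∈ E, (k : X ≃g X) v = f v := by
          intro E
          obtain ⟨_, h1, k, hk, rfl⟩ := mem_closure_iff.mp hf (Set.pi (E : Set V) fun v => {f v})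
            (isOpen_set_pi E.finite_toSet fun v _ => isOpen_discrete _) (fun v _ => rfl)
          exact ⟨k, hk, fun v hv => h1 v hv⟩
        classical
        have hinj : Function.Injective f := by
          intro a b hab
          obtain ⟨k, _, hk⟩ := key {a, b}
          apply k.injective
          rw [hk a (by simp), hk b (by simp), hab]
        have hsurj : Function.Surjective f := by
          intro w
          obtain ⟨k, hk, hk'⟩ := key (hfin w).toFinset
          refine ⟨k⁻¹ w, ?_⟩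
          rw [← hk' _ ((hfin w).mem_toFinset.mpr ⟨k⁻¹, K.inv_mem hk, rfl⟩)]
          simp
        let g : X ≃g X := ⟨Equiv.ofBijective f ⟨hinj, hsurj⟩, fun {a b} => by
          obtain ⟨k, _, hk⟩ := key {a, b}
          show X.Adj (f a) (f b) ↔ X.Adj a b
          rw [← hk a (by simp), ← hk b (by simp)]
          exact k.map_rel_iff⟩
        refine ⟨g, ?_, rfl⟩
        obtain ⟨k, hk, hk'⟩ := key F
        have h1 : k⁻¹ * g ∈ K := hF _ fun v hv => by
          have h2 : g v = k v := (hk' v hv).symm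
          rw [RelIso.mul_apply, h2]
          simp
        have h2 := K.mul_mem hk h1
        rwa [mul_inv_cancel_left] at h2
      · rintro _ ⟨k, hk, rfl⟩ v _
        exact ⟨k, hk, rfl⟩
    · exact discrete_quot K F hF

/-- the normal subgroup generated by elements with fixed points and bounded displacement has
finite orbits -/
lemma normal_finite (hc : X.Connected) (hl : ∀ v, (X.neighborSet v).Finite) (S : Set (X ≃g X))
    (D : ℕ) (hfix : ∀ s ∈ S, ∃ x, s x = x) (hD : ∀ s ∈ S, ∀ v, X.dist v (s v) ≤ D) :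
    ∃ K : Subgroup (X ≃g X), K.Normal ∧ (∀ s ∈ S, s ∈ K) ∧ ∀ v, {w | ∃ k ∈ K, k v = w}.Finite := by
  let C : Set (X ≃g X) := {c | (∃ x, c x = x) ∧ ∀ v, X.dist v (c v) ≤ D}
  have hC : ∀ g : X ≃g X, ∀ c ∈ C, g * c * g⁻¹ ∈ C := by
    rintro g c ⟨⟨x, hx⟩, h⟩
    refine ⟨⟨g x, by simp [hx]⟩, fun v => ?_⟩
    have := dist_map hc g (g⁻¹ v) (c (g⁻¹ v))
    rw [RelIso.apply_inv_self] at this
    exact this.le.trans (h _)
  have hinv : ∀ c ∈ C, c⁻¹ ∈ C := by
    rintro c ⟨⟨x, hx⟩, h⟩
    refine ⟨⟨x, by conv_lhs => rw [← hx]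
                   simp⟩, fun v => ?_⟩
    have := h (c⁻¹ v)
    rwa [RelIso.apply_inv_self, SimpleGraph.dist_comm] at this
  refine ⟨Subgroup.closure C, ?_, fun s hs => Subgroup.subset_closure ⟨hfix s hs, hD s hs⟩,
    fun v => ?_⟩
  · refine ⟨fun k hk g => ?_⟩
    induction hk using Subgroup.closure_induction with
    | mem c hc' => exact Subgroup.subset_closure (hC g c hc')
    | one => simp
    | mul a b _ _ ha hb =>
      have := Subgroup.mul_mem _ ha hb
      simpa [mul_assoc] using this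
    | inv a _ ha =>
      have := Subgroup.inv_mem _ ha
      simpa [mul_assoc] using this
  · refine dietz (G := X ≃g X) (V := V) hC hinv ?_ v ?_
    · rintro c ⟨⟨x, hx⟩, _⟩ y
      exact periodic_of_fix hc hl c hx y
    · refine (ball_finite hc hl D v).subset ?_
      rintro _ ⟨c, hc', rfl⟩
      exact hc'.2 v

lemma good_of_bounded (hc : X.Connected) (hl : ∀ v, (X.neighborSet v).Finite) (F : Finset V)
    (hF : F.Nonempty) (D : ℕ)
    (h : ∀ g : X ≃g X, (∀ v ∈ F, g v = v) → ∀ v, X.dist v (g v) ≤ D) : Good X := by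
  obtain ⟨x, hx⟩ := hF
  obtain ⟨K, h1, h2, h3⟩ := normal_finite hc hl {g | ∀ v ∈ F, g v = v} D
    (fun s hs => ⟨x, hs x hx⟩) h
  exact ⟨K, h1, ⟨F, h2⟩, h3⟩

end Graph

end Pool.Agent.H539Z.GD
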