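import Mathlib
import Pool.Agent.H539Z.GDBasic

set_option autoImplicit false

/-! Quotients of a graph by a group of automorphisms. -/

namespace Pool.Agent.H539Z.GD

variable {V : Type} {X : SimpleGraph V}

/-- the orbit relation of a group of automorphisms -/
def orb (M : Subgroup (X ≃g X)) : Setoid V where
  r v w := ∃ m ∈ M, m v = w
  iseqv := ⟨fun v => ⟨1, M.one_mem, rfl⟩,
    fun {v w} ⟨m, hm, h⟩ => ⟨m⁻¹, M.inv_mem hm, by rw [← h]; simp⟩,
    fun {u v w} ⟨m, hm, h⟩ ⟨m', hm', h'⟩ => ⟨m' * m, M.mul_mem hm' hm, by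
      rw [RelIso.mul_apply, h, h']⟩⟩

/-- the class of a vertex -/
def cl (M : Subgroup (X ≃g X)) (v : V) : Quotient (orb M) := Quotient.mk (orb M) v

lemma cl_eq {M : Subgroup (X ≃g X)} {v w : V} : cl M v = cl M w ↔ ∃ m ∈ M, m v = w :=
  Quotient.eq

lemma cl_surj {M : Subgroup (X ≃g X)} (a : Quotient (orb M)) : ∃ v, cl M v = a :=
  Quotient.exists_rep a

/-- the quotient graph -/
def QG (M : Subgroup (X ≃g X)) : SimpleGraph (Quotient (orb M)) where
  Adj a b := a ≠ b ∧ ∃ v w, cl M v = a ∧ cl M w = b ∧ X.Adj v w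
  symm := ⟨fun _ _ ⟨h, v, w, h1, h2, h3⟩ => ⟨h.symm, w, v, h2, h1, h3.symm⟩⟩
  loopless := ⟨fun _ h => h.1 rfl⟩

lemma QG_walk (M : Subgroup (X ≃g X)) {v w : V} (p : X.Walk v w) :
    ∃ q : (QG M).Walk (cl M v) (cl M w), q.length ≤ p.length := by
  induction p with
  | nil => exact ⟨.nil, le_rfl⟩
  | @cons a b c h p ih =>
    obtain ⟨q, hq⟩ := ih
    by_cases hab : cl M a = cl M b
    · refine ⟨q.copy hab.symm rfl, ?_⟩
      rw [SimpleGraph.Walk.length_copy, SimpleGraph.Walk.length_cons]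
      omega
    · have h' : (QG M).Adj (cl M a) (cl M b) := ⟨hab, a, b, rfl, rfl, h⟩
      refine ⟨.cons h' q, ?_⟩
      rw [SimpleGraph.Walk.length_cons, SimpleGraph.Walk.length_cons]
      omega

lemma QG_connected (hc : X.Connected) (M : Subgroup (X ≃g X)) : (QG M).Connected := by
  have : Nonempty (Quotient (orb M)) := hc.nonempty.map (cl M)
  refine ⟨fun a b => ?_⟩
  obtain ⟨v, rfl⟩ := cl_surj a
  obtain ⟨w, rfl⟩ := cl_surj b
  obtain ⟨p⟩ := hc.preconnected v w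
  obtain ⟨q, _⟩ := QG_walk M p
  exact ⟨q⟩

lemma QG_dist_le (hc : X.Connected) (M : Subgroup (X ≃g X)) (v w : V) :
    (QG M).dist (cl M v) (cl M w) ≤ X.dist v w := by
  obtain ⟨p, hp⟩ := hc.exists_walk_length_eq_dist v w
  obtain ⟨q, hq⟩ := QG_walk M p
  exact (SimpleGraph.dist_le q).trans (hp ▸ hq)

lemma QG_adj_lift {M : Subgroup (X ≃g X)} {v : V} {b : Quotient (orb M)}
    (h : (QG M).Adj (cl M v) b) : ∃ w, cl M w = b ∧ X.Adj v w := by
  obtain ⟨_, v', w', h1, h2, h3⟩ := h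
  obtain ⟨m, hm, rfl⟩ := cl_eq.mp h1
  exact ⟨m w', (cl_eq.mpr ⟨m, hm, rfl⟩).symm.trans h2, m.map_rel_iff.mpr h3⟩

lemma QG_lf (hl : ∀ v, (X.neighborSet v).Finite) (M : Subgroup (X ≃g X)) (a : Quotient (orb M)) :
    ((QG M).neighborSet a).Finite := by
  obtain ⟨v, rfl⟩ := cl_surj a
  refine ((hl v).image (cl M)).subset fun b hb => ?_
  obtain ⟨w, h1, h2⟩ := QG_adj_lift hb
  exact ⟨w, h2, h1⟩

lemma QG_lift_walk (hc : X.Connected) {M : Subgroup (X ≃g X)} {a b : Quotient (orb M)}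
    (p : (QG M).Walk a b) (v : V) (hv : cl M v = a) :
    ∃ w, cl M w = b ∧ X.dist v w ≤ p.length := by
  induction p generalizing v with
  | nil => exact ⟨v, hv, by simp⟩
  | cons h p ih =>
    subst hv
    obtain ⟨u, h1, h2⟩ := QG_adj_lift h
    obtain ⟨w, h3, h4⟩ := ih u h1
    refine ⟨w, h3, ?_⟩
    have h5 := hc.dist_triangle (u := v) (v := u) (w := w)
    rw [SimpleGraph.dist_eq_one_iff_adj.mpr h2] at h5
    rw [SimpleGraph.Walk.length_cons]
    omega

lemma QG_lift (hc : X.Connected) (M : Subgroup (X ≃g X)) (v : V) (b : Quotient (orb M)) :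
    ∃ w, cl M w = b ∧ X.dist v w ≤ (QG M).dist (cl M v) b := by
  obtain ⟨p, hp⟩ := (QG_connected hc M).exists_walk_length_eq_dist (cl M v) b
  exact hp ▸ QG_lift_walk hc p v rfl

/-- the map induced on the quotient by an automorphism normalising `M` -/
def qmap (M : Subgroup (X ≃g X)) (g : Subgroup.normalizer (M : Set (X ≃g X))) :
    Quotient (orb M) → Quotient (orb M) :=
  Quotient.map (sa := orb M) (sb := orb M) (fun v => g.1 v) fun v w ⟨m, hm, h⟩ =>
    ⟨g.1 * m * g.1⁻¹, (Subgroup.mem_normalizer_iff.mp g.2 m).mp hm, by simp [h]⟩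

lemma qmap_cl (M : Subgroup (X ≃g X)) (g : Subgroup.normalizer (M : Set (X ≃g X))) (v : V) :
    qmap M g (cl M v) = cl M (g.1 v) := rfl

lemma qmap_inv (M : Subgroup (X ≃g X)) (g : Subgroup.normalizer (M : Set (X ≃g X)))
    (a : Quotient (orb M)) : qmap M g⁻¹ (qmap M g a) = a := by
  obtain ⟨v, rfl⟩ := cl_surj a
  rw [qmap_cl, qmap_cl]
  simp

lemma qmap_adj (M : Subgroup (X ≃g X)) (g : Subgroup.normalizer (M : Set (X ≃g X)))
    {a b : Quotient (orb M)} (h : (QG M).Adj a b) : (QG M).Adj (qmap M g a) (qmap M g b) := by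
  obtain ⟨h0, v, w, rfl, rfl, h3⟩ := h
  refine ⟨fun h1 => h0 ?_, g.1 v, g.1 w, rfl, rfl, g.1.map_rel_iff.mpr h3⟩
  rw [← qmap_inv M g (cl M v), h1, qmap_inv]

/-- the action of the normaliser of `M` on the quotient graph -/
def qact (M : Subgroup (X ≃g X)) :
    Subgroup.normalizer (M : Set (X ≃g X)) →* (QG M ≃g QG M) where
  toFun g := ⟨⟨qmap M g, qmap M g⁻¹, qmap_inv M g, fun a => by
      have := qmap_inv M g⁻¹ a
      rwa [inv_inv] at this⟩, fun {a b} => ⟨fun h => by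
      have := qmap_adj M g⁻¹ h
      simpa only [Equiv.coe_fn_mk, qmap_inv] using this, qmap_adj M g⟩⟩
  map_one' := RelIso.ext fun a => by
    obtain ⟨v, rfl⟩ := cl_surj a
    rfl
  map_mul' g h := RelIso.ext fun a => by
    obtain ⟨v, rfl⟩ := cl_surj a
    rfl

lemma qact_cl (M : Subgroup (X ≃g X)) (g : Subgroup.normalizer (M : Set (X ≃g X))) (v : V) :
    qact M g (cl M v) = cl M (g.1 v) := rfl

end Pool.Agent.H539Z.GD
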