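import Mathlib
import Pool.Agent.H539Z.GDQuot

set_option autoImplicit false

/-! Graphical discreteness passes to central extensions with cyclic kernel. -/

namespace Pool.Agent.H539Z.GD

/-- graphical discreteness in combinatorial form, without finite generation -/
def PP (Γ : Type*) [Group Γ] : Prop :=
  ∀ (V : Type) (X : SimpleGraph V), X.Connected → (∀ v, (X.neighborSet v).Finite) →
    ∀ ρ : Γ →* (X ≃g X), IsGeometric X ρ → Good X

variable {V : Type} {X : SimpleGraph V}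

lemma disp_of_conj (hc : X.Connected) {Δ : Type*} [Group Δ] (ρ : Δ →* (X ≃g X)) {x : V} {R : ℕ}
    (hR : ∀ w, ∃ δ, X.dist w (ρ δ x) ≤ R) (a : X ≃g X) {E : ℕ}
    (h : ∀ δ, X.dist x (((ρ δ)⁻¹ * a * ρ δ) x) ≤ E) (v : V) : X.dist v (a v) ≤ 2 * R + E := by
  obtain ⟨δ, hδ⟩ := hR v
  have h1 := dist_map hc (ρ δ) x (((ρ δ)⁻¹ * a * ρ δ) x)
  simp only [RelIso.mul_apply, RelIso.apply_inv_self] at h1
  have h2 := h δ
  simp only [RelIso.mul_apply] at h2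
  have h3 := dist_map hc a (ρ δ x) v
  rw [SimpleGraph.dist_comm (u := ρ δ x)] at h3
  have h4 := hc.dist_triangle (u := v) (v := ρ δ x) (w := a v)
  have h5 := hc.dist_triangle (u := ρ δ x) (v := a (ρ δ x)) (w := a v)
  omega

/-- the quasimorphism argument -/
lemma quasi (hc : X.Connected) (hl : ∀ v, (X.neighborSet v).Finite) (ζ c : X ≃g X) (x : V)
    {E D T : ℕ} (hE : ∀ j : ℕ, ∃ n : ℤ, X.dist ((ζ ^ n) x) ((c ^ j) x) ≤ E)
    (hD : ∀ (n : ℤ) (v : V), X.dist ((ζ ^ n) (c v)) (c ((ζ ^ n) v)) ≤ D)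
    (hT : ∀ n : ℤ, X.dist x ((ζ ^ n) x) ≤ 3 * E + D → |n| ≤ T) (hy : ∃ y, c y = y) :
    ∃ n : ℤ, |n| ≤ 2 * T ∧ X.dist ((ζ ^ n) x) (c x) ≤ E := by
  obtain ⟨n, hn⟩ := hE 1
  rw [pow_one] at hn
  refine ⟨n, ?_, hn⟩
  have hshift : ∀ a b : ℤ, X.dist ((ζ ^ a) x) ((ζ ^ b) x) = X.dist x ((ζ ^ (b - a)) x) := by
    intro a b
    rw [← dist_map hc (ζ ^ a) x, ← RelIso.mul_apply, ← zpow_add, add_sub_cancel]
  have key : ∀ j : ℕ, ∃ m : ℤ, X.dist ((ζ ^ m) x) ((c ^ j) x) ≤ E ∧ |m - j * n| ≤ j * T := by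
    intro j
    induction j with
    | zero => exact ⟨0, by simp, by simp⟩
    | succ j ih =>
      obtain ⟨m, h1, h2⟩ := ih
      obtain ⟨m', h3⟩ := hE (j + 1)
      refine ⟨m', h3, ?_⟩
      have h4 : X.dist (c ((ζ ^ m) x)) ((c ^ (j + 1)) x) ≤ E := by
        rw [pow_succ', RelIso.mul_apply, dist_map hc]; exact h1
      have h5 := hD m x
      have h6 : X.dist ((ζ ^ (m + n)) x) ((ζ ^ m) (c x)) ≤ E := by
        rw [zpow_add, RelIso.mul_apply, dist_map hc]; exact hn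
      have h7 := hc.dist_triangle (u := (ζ ^ (m + n)) x) (v := (ζ ^ m) (c x)) (w := (ζ ^ m') x)
      have h8 := hc.dist_triangle (u := (ζ ^ m) (c x)) (v := c ((ζ ^ m) x)) (w := (ζ ^ m') x)
      have h9 := hc.dist_triangle (u := c ((ζ ^ m) x)) (v := (c ^ (j + 1)) x) (w := (ζ ^ m') x)
      rw [SimpleGraph.dist_comm] at h3
      have h10 := hT (m' - (m + n)) (by rw [← hshift]; omega)
      rw [abs_le] at h2 h10 ⊢
      push_cast
      constructor <;> nlinarith [h2.1, h2.2, h10.1, h10.2]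
  obtain ⟨y, hy⟩ := hy
  obtain ⟨i, j, hij, h⟩ := Set.Finite.exists_lt_map_eq_of_forall_mem
    (f := fun n : ℕ => (c ^ n) x) (fun n => Set.mem_range_self n) (periodic_of_fix hc hl c hy x)
  obtain ⟨l, rfl⟩ := Nat.exists_eq_add_of_lt hij
  have h1 : (c ^ (l + 1)) x = x := by
    rw [add_assoc, pow_add, RelIso.mul_apply] at h
    exact ((c ^ i).injective h).symm
  obtain ⟨m, h2, h3⟩ := key (l + 1)
  rw [h1, SimpleGraph.dist_comm] at h2
  have h4 := hT m (by omega)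
  have hl0 : (0 : ℤ) ≤ l := Int.natCast_nonneg l
  have hT0 : (0 : ℤ) ≤ T := Int.natCast_nonneg T
  rw [abs_le] at h3 h4 ⊢
  push_cast at h3
  constructor <;> nlinarith [h3.1, h3.2, h4.1, h4.2]

theorem pp_central {Δ : Type*} [Group Δ] (z : Δ) (hz : ∀ δ, Commute δ z)
    [(Subgroup.zpowers z).Normal] (hP : PP (Δ ⧸ Subgroup.zpowers z)) : PP Δ := by
  classical
  intro V X hc hl ρ ⟨hprop, x, R, hR⟩
  set ζ := ρ z with hζ
  have hρζ : ∀ δ, Commute (ρ δ) ζ := fun δ => (hz δ).map ρ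
  have hD₀ : ∀ v, X.dist v (ζ v) ≤ 2 * R + X.dist x (ζ x) :=
    disp_of_conj hc ρ hR ζ fun δ => by
      rw [mul_assoc, ← (hρζ δ).eq, inv_mul_cancel_left]
  set D₀ := 2 * R + X.dist x (ζ x)
  obtain ⟨K, hKn, hKS, hKf⟩ := normal_finite hc hl
    {s | ∃ u : X ≃g X, u x = x ∧ u (ζ⁻¹ x) = ζ⁻¹ x ∧ s = u * ζ * u⁻¹ * ζ⁻¹} (2 * D₀)
    (by
      rintro _ ⟨u, h1, h2, rfl⟩
      refine ⟨x, ?_⟩
      have h3 : u⁻¹ (ζ⁻¹ x) = ζ⁻¹ x := by
        conv_lhs => rw [← h2]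
        simp
      simp only [RelIso.mul_apply, h3, RelIso.apply_inv_self, h1])
    (by
      rintro _ ⟨u, -, -, rfl⟩ v
      have h1 := hD₀ (ζ⁻¹ v)
      rw [RelIso.apply_inv_self, SimpleGraph.dist_comm] at h1
      have h2 := hD₀ (u⁻¹ (ζ⁻¹ v))
      rw [← dist_map hc u, RelIso.apply_inv_self] at h2
      have h3 := hc.dist_triangle (u := v) (v := ζ⁻¹ v) (w := u (ζ (u⁻¹ (ζ⁻¹ v))))
      simp only [RelIso.mul_apply]
      omega)
  obtain ⟨DK, hDK⟩ : ∃ DK, ∀ k ∈ K, ∀ v, X.dist v (k v) ≤ DK := by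
    obtain ⟨D, hD⟩ := bounded_of_finite (X := X) (hKf x) x
    refine ⟨2 * R + D, fun k hk => disp_of_conj hc ρ hR k fun δ => hD _ ⟨_, ?_, rfl⟩⟩
    simpa using hKn.conj_mem k hk (ρ δ)⁻¹
  let π := QuotientGroup.mk' K
  let C : Subgroup (X ≃g X) := (Subgroup.centralizer {π ζ}).comap π
  have hC : ∀ g, g ∈ C ↔ Commute (π g) (π ζ) := fun g => by
    simp only [C, Subgroup.mem_comap, Subgroup.mem_centralizer_singleton_iff]
    rfl
  let M : Subgroup (X ≃g X) := (Subgroup.zpowers (π ζ)).comap π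
  have hM : ∀ m ∈ M, ∃ n : ℤ, ∃ k ∈ K, m = k * ζ ^ n := by
    rintro m ⟨n, hn⟩
    refine ⟨n, m * (ζ ^ n)⁻¹, ?_, by simp⟩
    have h1 : π (m * (ζ ^ n)⁻¹) = 1 := by
      rw [map_mul, map_inv, map_zpow, ← hn]; simp
    exact (QuotientGroup.eq_one_iff _).mp h1
  have hζM : ∀ n : ℤ, ζ ^ n ∈ M := fun n => ⟨n, (map_zpow π ζ n).symm⟩
  have hCN : ∀ g ∈ C, g ∈ Subgroup.normalizer (M : Set (X ≃g X)) := by
    have h1 : ∀ g ∈ C, ∀ m ∈ M, g * m * g⁻¹ ∈ M := by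
      rintro g hg m ⟨n, hn⟩
      refine ⟨n, ?_⟩
      have h2 := (((hC g).mp hg).zpow_right n).eq
      simp only at hn
      rw [map_mul, map_mul, map_inv, ← hn, h2]
      simp
    intro g hg
    refine Subgroup.mem_normalizer_iff.mpr fun m => ⟨h1 g hg m, fun h => ?_⟩
    simpa [mul_assoc] using h1 g⁻¹ (C.inv_mem hg) _ h
  have hρC : ∀ δ, ρ δ ∈ C := fun δ => (hC _).mpr ((hρζ δ).map π)
  let σ : C →* (QG M ≃g QG M) := (qact M).comp (Subgroup.inclusion hCN)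
  have hσ : ∀ (g : C) (v : V), σ g (cl M v) = cl M (g.1 v) := fun g v => rfl
  let τ : Δ →* (QG M ≃g QG M) := σ.comp (ρ.codRestrict C hρC)
  have hτ : ∀ δ v, τ δ (cl M v) = cl M (ρ δ v) := fun δ v => rfl
  let ρ' : (Δ ⧸ Subgroup.zpowers z) →* (QG M ≃g QG M) :=
    QuotientGroup.lift (Subgroup.zpowers z) τ (by
      rintro _ ⟨n, rfl⟩
      refine RelIso.ext fun a => ?_
      obtain ⟨v, rfl⟩ := cl_surj a
      rw [hτ, map_zpow]
      exact (cl_eq.mpr ⟨_, hζM n, rfl⟩).symm)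
  have hρ' : ∀ (δ : Δ) v, ρ' (δ : Δ ⧸ Subgroup.zpowers z) (cl M v) = cl M (ρ δ v) :=
    fun δ v => rfl
  obtain ⟨KY, hKYn, ⟨FY, hFY⟩, hKYf⟩ := hP _ (QG M) (QG_connected hc M) (QG_lf hl M) ρ' (by
    constructor
    · intro a R'
      obtain ⟨v, rfl⟩ := cl_surj a
      refine ((hprop v (R' + DK)).image (QuotientGroup.mk (s := Subgroup.zpowers z))).subset
        fun q hq => ?_
      obtain ⟨δ, rfl⟩ := QuotientGroup.mk_surjective q
      obtain ⟨w, h1, h2⟩ := QG_lift hc M v (cl M (ρ δ v))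
      obtain ⟨m, hm, rfl⟩ := cl_eq.mp h1.symm
      obtain ⟨n, k, hk, rfl⟩ := hM m hm
      refine ⟨z ^ n * δ, ?_, ?_⟩
      · have h3 : (QG M).dist (cl M v) (cl M (ρ δ v)) ≤ R' := hq
        have h4 := hDK k hk ((ζ ^ n) (ρ δ v))
        rw [SimpleGraph.dist_comm] at h4
        have h5 := hc.dist_triangle (u := v) (v := k ((ζ ^ n) (ρ δ v))) (w := (ζ ^ n) (ρ δ v))
        rw [RelIso.mul_apply] at h2
        show X.dist v (ρ (z ^ n * δ) v) ≤ R' + DK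
        rw [map_mul, map_zpow, RelIso.mul_apply, ← hζ]
        omega
      · rw [QuotientGroup.mk_mul,
          (QuotientGroup.eq_one_iff (z ^ n)).mpr (Subgroup.zpow_mem_zpowers z n), one_mul]
    · refine ⟨cl M x, R, fun a => ?_⟩
      obtain ⟨v, rfl⟩ := cl_surj a
      obtain ⟨δ, hδ⟩ := hR v
      exact ⟨δ, (QG_dist_le hc M v (ρ δ x)).trans hδ⟩)
  let s : Quotient (orb M) → V := fun a => (cl_surj a).choose
  have hs : ∀ a, cl M (s a) = a := fun a => (cl_surj a).choose_spec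
  obtain ⟨E₀, hE₀⟩ := bounded_of_finite (X := X) ((hKYf (cl M x)).image s) x
  have hE : ∀ c : C, σ c ∈ KY → ∃ n : ℤ, X.dist ((ζ ^ n) x) (c.1 x) ≤ E₀ + DK := by
    intro c hc'
    have h1 := hE₀ (s (cl M (c.1 x))) ⟨_, ⟨σ c, hc', rfl⟩, rfl⟩
    obtain ⟨m, hm, h2⟩ := cl_eq.mp (hs (cl M (c.1 x)))
    obtain ⟨n, k, hk, rfl⟩ := hM m hm
    refine ⟨n, ?_⟩
    rw [← dist_map hc (ζ ^ n)] at h1
    have h3 := hDK k hk ((ζ ^ n) (s (cl M (c.1 x))))
    rw [RelIso.mul_apply] at h2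
    rw [h2] at h3
    have h4 := hc.dist_triangle (u := (ζ ^ n) x) (v := (ζ ^ n) (s (cl M (c.1 x)))) (w := c.1 x)
    omega
  obtain ⟨D, hD⟩ : ∃ D, ∀ c : C, σ c ∈ KY → (∃ y, c.1 y = y) → X.dist x (c.1 x) ≤ D := by
    by_cases hfo : IsOfFinOrder z
    · obtain ⟨B, hB⟩ := bounded_of_finite (X := X)
        ((finite_zpowers.mpr hfo).image fun δ => ρ δ x) x
      refine ⟨B + (E₀ + DK), fun c hc' _ => ?_⟩
      obtain ⟨n, hn⟩ := hE c hc'
      have h1 := hB ((ζ ^ n) x) ⟨z ^ n, Subgroup.zpow_mem_zpowers z n, by simp [hζ]⟩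
      have h2 := hc.dist_triangle (u := x) (v := (ζ ^ n) x) (w := c.1 x)
      omega
    · have h1 := (hprop x (3 * (E₀ + DK) + DK)).preimage
        (injective_zpow_iff_not_isOfFinOrder.mpr hfo).injOn
      obtain ⟨T, hT⟩ := (h1.image Int.natAbs).bddAbove
      obtain ⟨B, hB⟩ := bounded_of_finite (X := X)
        ((Set.finite_Icc (-(2 * (T : ℤ))) (2 * T)).image fun n => (ζ ^ n) x) x
      refine ⟨B + (E₀ + DK), fun c hc' hy => ?_⟩
      obtain ⟨n, hn1, hn2⟩ := quasi hc hl ζ c.1 x (E := E₀ + DK) (D := DK) (T := T)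
        (fun j => hE (c ^ j) (by rw [map_pow]; exact KY.pow_mem hc' j))
        (fun n v => by
          have h2 : c.1 * ζ ^ n * c.1⁻¹ * (ζ ^ n)⁻¹ ∈ K := by
            refine (QuotientGroup.eq_one_iff _).mp ?_
            have h3 := (((hC c.1).mp c.2).zpow_right n).eq
            show π _ = 1
            rw [map_mul, map_mul, map_mul, map_inv, map_inv, map_zpow, h3]
            simp
          have h3 := hDK _ h2 ((ζ ^ n) (c.1 v))
          simpa using h3)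
        (fun n hn => by
          have h2 : n.natAbs ≤ T := hT ⟨n, by simpa [hζ] using hn, rfl⟩
          rw [Int.abs_eq_natAbs]
          exact_mod_cast h2) hy
      have h3 := hB ((ζ ^ n) x) ⟨n, abs_le.mp hn1, rfl⟩
      have h2 := hc.dist_triangle (u := x) (v := (ζ ^ n) x) (w := c.1 x)
      omega
  have hfin : ∀ g : X ≃g X, g x = x → g (ζ⁻¹ x) = ζ⁻¹ x → (∀ a ∈ FY, g (s a) = s a) →
      ∀ v, X.dist v (g v) ≤ 2 * R + D := by
    intro g hgx hg1 hg2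
    have hgC : g ∈ C := by
      have h1 := hKS _ ⟨g, hgx, hg1, rfl⟩
      have h2 : π (g * ζ * g⁻¹ * ζ⁻¹) = 1 := (QuotientGroup.eq_one_iff _).mpr h1
      rw [map_mul, map_mul, map_mul, map_inv, map_inv] at h2
      exact (hC g).mpr (commutatorElement_eq_one_iff_commute.mp h2)
    have hgK : σ ⟨g, hgC⟩ ∈ KY := hFY _ fun a ha => by
      have h1 := hσ ⟨g, hgC⟩ (s a)
      rw [hs a] at h1
      rw [h1]
      show cl M (g (s a)) = a
      rw [hg2 a ha, hs a]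
    refine disp_of_conj hc ρ hR g fun δ => ?_
    have h1 : σ ((⟨ρ δ, hρC δ⟩ : C)⁻¹ * ⟨g, hgC⟩ * ⟨ρ δ, hρC δ⟩) ∈ KY := by
      rw [map_mul, map_mul, map_inv]
      have h2 := hKYn.conj_mem _ hgK (σ ⟨ρ δ, hρC δ⟩)⁻¹
      rwa [inv_inv] at h2
    have h2 : ((ρ δ)⁻¹ * g * ρ δ) ((ρ δ)⁻¹ x) = (ρ δ)⁻¹ x := by
      rw [RelIso.mul_apply, RelIso.mul_apply, RelIso.apply_inv_self, hgx]
    have h3 : ((⟨ρ δ, hρC δ⟩ : C)⁻¹ * ⟨g, hgC⟩ * ⟨ρ δ, hρC δ⟩ : C).1 = (ρ δ)⁻¹ * g * ρ δ := by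
      rw [Subgroup.coe_mul, Subgroup.coe_mul, Subgroup.coe_inv]
    have h4 := hD _ h1
    rw [h3] at h4
    exact h4 ⟨_, h2⟩
  refine good_of_bounded hc hl (insert x (insert (ζ⁻¹ x) (FY.image s)))
    (Finset.insert_nonempty _ _) (2 * R + D) fun g hg => hfin g
    (hg _ (Finset.mem_insert_self _ _))
    (hg _ (Finset.mem_insert_of_mem (Finset.mem_insert_self _ _)))
    fun a ha => hg _ (Finset.mem_insert_of_mem (Finset.mem_insert_of_mem
      (Finset.mem_image_of_mem s ha)))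

end Pool.Agent.H539Z.GD
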