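import Mathlib
import Pool.Agent.H539Z.GDCentral

set_option autoImplicit false

/-! Products of a graphically discrete group with a virtually nilpotent group. -/

namespace Pool.Agent.H539Z.GD

open scoped commutatorElement

universe u v

/-- passing to an overgroup of finite index -/
lemma pp_of_hom {H : Type*} {Δ : Type*} [Group H] [Group Δ] (f : H →* Δ)
    (hf : Function.Injective f) (hi : f.range.FiniteIndex) (hP : PP H) : PP Δ := by
  intro V X hc hl ρ ⟨hprop, x, R, hR⟩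
  refine hP V X hc hl (ρ.comp f) ⟨fun v R' => (hprop v R').preimage hf.injOn, ?_⟩
  obtain ⟨D, hD⟩ := bounded_of_finite (X := X)
    (Set.finite_range fun q : Δ ⧸ f.range => ρ (q.out)⁻¹ x) x
  refine ⟨x, R + D, fun w => ?_⟩
  obtain ⟨δ, hδ⟩ := hR w
  obtain ⟨⟨_, h, rfl⟩, hh⟩ := QuotientGroup.mk_out_eq_mul f.range δ⁻¹
  refine ⟨h, ?_⟩
  have h1 := hD _ ⟨((δ⁻¹ : Δ) : Δ ⧸ f.range), rfl⟩
  simp only [hh] at h1
  rw [← dist_map hc (ρ (f h)), ← RelIso.mul_apply (ρ (f h)) (ρ _), ← map_mul, mul_inv_rev, inv_inv,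
    mul_inv_cancel_left, SimpleGraph.dist_comm] at h1
  have h2 := hc.dist_triangle (u := w) (v := ρ δ x) (w := ρ (f h) x)
  show X.dist w (ρ (f h) x) ≤ R + D
  omega

lemma pp_central_list {Δ' : Type v} [Group Δ'] (hP : PP Δ') (n : ℕ) :
    ∀ (Δ : Type u) [Group Δ] (φ : Δ →* Δ') (l : List Δ), l.length = n → Function.Surjective φ →
      φ.ker = Subgroup.closure {a | a ∈ l} → (∀ a ∈ l, ∀ δ, Commute δ a) → PP Δ := by
  induction n with
  | zero =>
    intro Δ _ φ l hl hs hk _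
    rw [List.length_eq_zero_iff.mp hl] at hk
    have hi : Function.Injective φ := by
      rw [← MonoidHom.ker_eq_bot_iff, hk]; simp
    let e := MulEquiv.ofBijective φ ⟨hi, hs⟩
    refine pp_of_hom e.symm.toMonoidHom e.symm.injective ?_ hP
    rw [MonoidHom.range_eq_top.mpr e.symm.surjective]
    infer_instance
  | succ n ih =>
    intro Δ _ φ l hl hs hk hcen
    obtain ⟨z, l, rfl⟩ := List.exists_cons_of_length_eq_add_one hl
    have hz := hcen z (by simp)
    have : (Subgroup.zpowers z).Normal := ⟨by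
      rintro _ ⟨n, rfl⟩ g
      refine ⟨n, ?_⟩
      simp only
      rw [((hz g).zpow_right n).eq, mul_inv_cancel_right]⟩
    have hle : Subgroup.zpowers z ≤ φ.ker := by
      rw [hk, Subgroup.zpowers_le]
      exact Subgroup.subset_closure (by simp)
    refine pp_central z hz (ih _ (QuotientGroup.lift _ φ hle)
      (l.map (QuotientGroup.mk' (Subgroup.zpowers z))) (by simpa using hl) ?_ ?_ ?_)
    · intro y
      obtain ⟨δ, rfl⟩ := hs y
      exact ⟨δ, rfl⟩
    · rw [QuotientGroup.ker_lift, hk, MonoidHom.map_closure]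
      refine le_antisymm ((Subgroup.closure_le _).mpr ?_) (Subgroup.closure_mono ?_)
      · rintro _ ⟨a, ha, rfl⟩
        rcases List.mem_cons.mp ha with rfl | ha
        · have : QuotientGroup.mk' (Subgroup.zpowers a) a = 1 :=
            (QuotientGroup.eq_one_iff a).mpr (Subgroup.mem_zpowers a)
          rw [this]
          exact Subgroup.one_mem _
        · exact Subgroup.subset_closure (List.mem_map_of_mem ha)
      · intro b hb
        obtain ⟨a, ha, rfl⟩ := List.mem_map.mp hb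
        exact ⟨a, List.mem_cons_of_mem _ ha, rfl⟩
    · intro b hb q
      obtain ⟨a, ha, rfl⟩ := List.mem_map.mp hb
      obtain ⟨δ, rfl⟩ := QuotientGroup.mk'_surjective _ q
      exact (hcen a (List.mem_cons_of_mem _ ha) δ).map _

/-- central extensions with finitely generated kernel -/
theorem pp_central_fg {Δ : Type u} {Δ' : Type v} [Group Δ] [Group Δ'] (φ : Δ →* Δ')
    (hs : Function.Surjective φ) (hk : φ.ker.FG) (hc : φ.ker ≤ Subgroup.center Δ) (hP : PP Δ') :
    PP Δ := by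
  obtain ⟨S, hS⟩ := hk
  refine pp_central_list hP _ Δ φ S.toList rfl hs (by rw [← hS]; simp) fun a ha δ => ?_
  have : a ∈ φ.ker := hS ▸ Subgroup.subset_closure (by simpa using ha)
  exact Subgroup.mem_center_iff.mp (hc this) δ

lemma comm_gen {G : Type*} [Group G] {S A : Set G} (hS : Subgroup.closure S = ⊤) (H : Subgroup G)
    [H.Normal] (hA : A ⊆ H) (hH : H ≤ Subgroup.closure A ⊔ ⁅H, ⊤⁆) :
    ⁅H, (⊤ : Subgroup G)⁆ ≤ Subgroup.closure (Set.image2 (fun a s => ⁅a, s⁆) A S)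
      ⊔ ⁅⁅H, (⊤ : Subgroup G)⁆, ⊤⁆ := by
  set J := Subgroup.closure (Set.image2 (fun a s => ⁅a, s⁆) A S) ⊔ ⁅⁅H, (⊤ : Subgroup G)⁆, ⊤⁆
  have hJ : J ≤ ⁅H, ⊤⁆ := by
    refine sup_le ((Subgroup.closure_le _).mpr ?_) (Subgroup.commutator_le_left _ _)
    rintro _ ⟨a, ha, s, _, rfl⟩
    exact Subgroup.commutator_mem_commutator (hA ha) (Subgroup.mem_top s)
  have hK : ∀ x ∈ ⁅H, (⊤ : Subgroup G)⁆, ∀ g, ⁅x, g⁆ ∈ J := fun x hx g =>
    Subgroup.mem_sup_right (Subgroup.commutator_mem_commutator hx (Subgroup.mem_top g))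
  have hconj : ∀ x ∈ J, ∀ g, g * x * g⁻¹ ∈ J := by
    intro x hx g
    have := J.mul_mem (J.inv_mem (hK x (hJ hx) g)) hx
    have e : g * x * g⁻¹ = ⁅x, g⁆⁻¹ * x := by simp [commutatorElement_def, mul_assoc]
    rwa [e]
  have h1 : ∀ a ∈ A, ∀ g, ⁅a, g⁆ ∈ J := by
    intro a ha g
    have hg : g ∈ Subgroup.closure S := hS ▸ Subgroup.mem_top g
    induction hg using Subgroup.closure_induction with
    | mem s hs => exact Subgroup.mem_sup_left (Subgroup.subset_closure ⟨a, ha, s, hs, rfl⟩)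
    | one => simp
    | mul g g' _ _ h h' =>
      have e : ⁅a, g * g'⁆ = ⁅a, g⁆ * (g * ⁅a, g'⁆ * g⁻¹) := by
        simp [commutatorElement_def, mul_assoc]
      rw [e]
      exact J.mul_mem h (hconj _ h' g)
    | inv g _ h =>
      have e : ⁅a, g⁻¹⁆ = g⁻¹ * ⁅a, g⁆⁻¹ * g⁻¹⁻¹ := by simp [commutatorElement_def, mul_assoc]
      rw [e]
      exact hconj _ (J.inv_mem h) _
  refine Subgroup.commutator_le.mpr fun h hh g _ => ?_
  let L : Subgroup G :=
    { carrier := {h | ⁅h, g⁆ ∈ J}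
      one_mem' := by simp
      mul_mem' := fun {a b} ha hb => by
        have e : ⁅a * b, g⁆ = a * ⁅b, g⁆ * a⁻¹ * ⁅a, g⁆ := by
          simp [commutatorElement_def, mul_assoc]
        show ⁅a * b, g⁆ ∈ J
        rw [e]
        exact J.mul_mem (hconj _ hb a) ha
      inv_mem' := fun {a} ha => by
        have e : ⁅a⁻¹, g⁆ = a⁻¹ * ⁅a, g⁆⁻¹ * a⁻¹⁻¹ := by simp [commutatorElement_def, mul_assoc]
        show ⁅a⁻¹, g⁆ ∈ J
        rw [e]
        exact hconj _ (J.inv_mem ha) _ }
  have hL : H ≤ L := hH.trans (sup_le ((Subgroup.closure_le _).mpr fun a ha => h1 a ha g)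
    fun x hx => hK x hx g)
  exact hL hh

lemma lcs_gen {G : Type*} [Group G] [Group.FG G] (n : ℕ) : ∃ A : Set G, A.Finite ∧
    A ⊆ (⊤ : Subgroup G).lowerCentralSeries n ∧ (⊤ : Subgroup G).lowerCentralSeries n
      ≤ Subgroup.closure A ⊔ (⊤ : Subgroup G).lowerCentralSeries (n + 1) := by
  obtain ⟨S, hS, hS'⟩ := Group.fg_iff.mp ‹Group.FG G›
  induction n with
  | zero => exact ⟨S, hS', fun _ _ => Subgroup.mem_top _, by rw [hS]; simp⟩
  | succ n ih =>
    obtain ⟨A, h1, h2, h3⟩ := ih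
    refine ⟨Set.image2 (fun a s => ⁅a, s⁆) A S, h1.image2 _ hS', ?_, comm_gen hS _ h2 h3⟩
    rintro _ ⟨a, ha, s, _, rfl⟩
    exact Subgroup.commutator_mem_commutator (h2 ha) (Subgroup.mem_top s)

lemma pp_prod_nilpotent {Γ : Type u} [Group Γ] (hP : PP Γ) (c : ℕ) :
    ∀ (N : Type v) [Group N] [Group.FG N], (⊤ : Subgroup N).lowerCentralSeries c = ⊥ →
      PP (Γ × N) := by
  induction c with
  | zero =>
    intro N _ _ h
    refine pp_of_hom (MonoidHom.inl Γ N) (fun a b hab => congrArg Prod.fst hab) ?_ hP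
    have : (MonoidHom.inl Γ N).range = ⊤ := by
      rw [eq_top_iff]
      rintro ⟨a, b⟩ _
      have hb : b ∈ (⊥ : Subgroup N) := h ▸ Subgroup.mem_top b
      exact ⟨a, Prod.ext rfl (Subgroup.mem_bot.mp hb).symm⟩
    rw [this]
    infer_instance
  | succ c ih =>
    intro N _ _ h
    set Z := (⊤ : Subgroup N).lowerCentralSeries c with hZ
    obtain ⟨A, h1, h2, h3⟩ := lcs_gen (G := N) c
    rw [h, sup_bot_eq] at h3
    have hZA : Z = Subgroup.closure A := le_antisymm h3 ((Subgroup.closure_le _).mpr h2)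
    have hk : ((MonoidHom.id Γ).prodMap (QuotientGroup.mk' Z)).ker = Z.map (MonoidHom.inr Γ N) := by
      ext ⟨a, b⟩
      simp only [MonoidHom.mem_ker, MonoidHom.coe_prodMap, Prod.map_apply, MonoidHom.id_apply,
        Prod.mk_eq_one, QuotientGroup.mk'_apply, QuotientGroup.eq_one_iff, Subgroup.mem_map,
        MonoidHom.inr_apply, Prod.mk.injEq]
      constructor
      · rintro ⟨rfl, hb⟩
        exact ⟨b, hb, rfl, rfl⟩
      · rintro ⟨b, hb, rfl, rfl⟩
        exact ⟨rfl, hb⟩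
    refine pp_central_fg ((MonoidHom.id Γ).prodMap (QuotientGroup.mk' Z))
      (Function.surjective_id.prodMap (QuotientGroup.mk'_surjective Z)) ?_ ?_ (ih _ ?_)
    · rw [hk, hZA, MonoidHom.map_closure]
      exact (Subgroup.fg_iff _).mpr ⟨_, rfl, h1.image _⟩
    · rw [hk]
      rintro _ ⟨b, hb, rfl⟩
      refine Subgroup.mem_center_iff.mpr fun ⟨g, n⟩ => Prod.ext (by simp) ?_
      have h4 : ⁅b, n⁆ ∈ (⊤ : Subgroup N).lowerCentralSeries (c + 1) :=
        Subgroup.commutator_mem_commutator hb (Subgroup.mem_top n)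
      rw [h, Subgroup.mem_bot, commutatorElement_eq_one_iff_mul_comm] at h4
      simpa using h4.symm
    · rw [← Subgroup.map_top_of_surjective _ (QuotientGroup.mk'_surjective Z),
        ← Subgroup.map_lowerCentralSeries, ← hZ, QuotientGroup.map_mk'_self]

lemma gd_iff {Γ : Type*} [Group Γ] : GraphicallyDiscrete Γ ↔ Group.FG Γ ∧ PP Γ := by
  simp only [GraphicallyDiscrete, PP, cbd_iff]

theorem main {Γ : Type u} {Γ' : Type v} [Group Γ] [Group Γ'] (h : GraphicallyDiscrete Γ)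
    (hfg : Group.FG Γ') (hn : Group.IsVirtuallyNilpotent Γ') : GraphicallyDiscrete (Γ × Γ') := by
  obtain ⟨h1, hP⟩ := gd_iff.mp h
  obtain ⟨N, hN, hi⟩ := hn
  refine gd_iff.mpr ⟨inferInstance, ?_⟩
  obtain ⟨c, hc⟩ := Subgroup.nilpotent_iff_lowerCentralSeries.mp hN
  refine pp_of_hom ((MonoidHom.id Γ).prodMap N.subtype)
    (Function.injective_id.prodMap N.subtype_injective) ?_ (pp_prod_nilpotent hP c N hc)
  rw [MonoidHom.range_prodMap, MonoidHom.range_eq_top.mpr Function.surjective_id,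
    Subgroup.range_subtype]
  exact ⟨by rw [Subgroup.index_prod, Subgroup.index_top, one_mul]; exact hi.index_ne_zero⟩

end Pool.Agent.H539Z.GD
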